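import Pool.Agent.Helper51.PP.Spec

/-!
# Swarm PC, part CL: the corrector estimate for sequences
-/

set_option autoImplicit false

namespace Pool.Agent.Helper74.PC.CL

open Pool.Agent.Helper51.PP Finset

/-- Abel summation against the decreasing weights `1/√(k+1)` -/
lemma abel (F : ℕ → ℝ) (lam : ℝ) (hF : ∀ n, ∑ k ∈ range n, F k ≤ lam * n) (n : ℕ) :
    (lam * n - ∑ k ∈ range n, F k) * (√((n : ℝ) + 1))⁻¹ ≤
      ∑ k ∈ range n, (lam - F k) * (√((k : ℝ) + 1))⁻¹ := by
  induction n with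
  | zero => simp
  | succ n ih =>
    rw [sum_range_succ _ n]
    rw [sum_range_succ _ n]
    have h1 := hF (n + 1)
    rw [sum_range_succ] at h1
    have h2 : (√(((n + 1 : ℕ) : ℝ) + 1))⁻¹ ≤ (√((n : ℝ) + 1))⁻¹ := by
      apply inv_anti₀ (Real.sqrt_pos.2 (by positivity))
      apply Real.sqrt_le_sqrt
      push_cast
      linarith
    have h3 : 0 ≤ lam * ((n + 1 : ℕ) : ℝ) - (∑ k ∈ range n, F k + F n) := by linarith
    have h4 := mul_le_mul_of_nonneg_left h2 h3
    refine h4.trans ?_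
    have h5 : lam * ((n + 1 : ℕ) : ℝ) - (∑ k ∈ range n, F k + F n) =
        (lam * n - ∑ k ∈ range n, F k) + (lam - F n) := by push_cast; ring
    rw [h5, add_mul]
    linarith

lemma sum_inv (n : ℕ) : ∑ k ∈ range n, (√((k : ℝ) + 1))⁻¹ ≤ 2 * √(n : ℝ) := by
  induction n with
  | zero => simp
  | succ n ih =>
    rw [sum_range_succ]
    have h0 : (0 : ℝ) ≤ n := Nat.cast_nonneg n
    have hs : 0 < √((n : ℝ) + 1) := Real.sqrt_pos.2 (by positivity)
    have hq : √((n : ℝ) + 1) * √((n : ℝ) + 1) = n + 1 := Real.mul_self_sqrt (by positivity)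
    have hr : √(n : ℝ) * √(n : ℝ) = n := Real.mul_self_sqrt h0
    have hr0 : 0 ≤ √(n : ℝ) := Real.sqrt_nonneg _
    have key : (√((n : ℝ) + 1))⁻¹ ≤ 2 * √((n : ℝ) + 1) - 2 * √(n : ℝ) := by
      rw [inv_le_iff_one_le_mul₀ hs]
      nlinarith [sq_nonneg (√((n : ℝ) + 1) - √(n : ℝ))]
    push_cast
    linarith

lemma wsum (F : ℕ → ℝ) (lam : ℝ) (hl : 0 ≤ lam) (hF : ∀ n, ∑ k ∈ range n, F k ≤ lam * n) (n : ℕ) :
    ∑ k ∈ range n, F k * (√((k : ℝ) + 1))⁻¹ ≤ 2 * lam * √(n : ℝ) := by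
  have h1 := abel F lam hF n
  have h2 : 0 ≤ (lam * n - ∑ k ∈ range n, F k) * (√((n : ℝ) + 1))⁻¹ :=
    mul_nonneg (by linarith [hF n]) (inv_nonneg.2 (Real.sqrt_nonneg _))
  have h3 : ∑ k ∈ range n, (lam - F k) * (√((k : ℝ) + 1))⁻¹ =
      lam * ∑ k ∈ range n, (√((k : ℝ) + 1))⁻¹ - ∑ k ∈ range n, F k * (√((k : ℝ) + 1))⁻¹ := by
    rw [mul_sum, ← sum_sub_distrib]
    exact sum_congr rfl fun k _ => by ring
  have h4 := mul_le_mul_of_nonneg_left (sum_inv n) hl
  nlinarith

lemma amgm {a b c : ℝ} (ha : 0 ≤ a) (hb : 0 ≤ b) (hc : 0 < c) :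
    √(2 * a * b) ≤ a * c⁻¹ + c * b / 2 := by
  apply Real.sqrt_le_iff.2
  constructor
  · positivity
  · have h : a * c⁻¹ * (c * b) = a * b := by field_simp
    nlinarith [sq_nonneg (a * c⁻¹ - c * b / 2)]

theorem main : S_CL := by
  intro C hC
  refine ⟨7 + C / 2, by positivity, ?_⟩
  intro H U F lam hlam hH hU hF hsum hent hrec hU0 hU1 n hn
  have hn1 : (1 : ℝ) ≤ √(n : ℝ) := Real.one_le_sqrt.2 (by exact_mod_cast hn)
  have hsl := Real.sqrt_nonneg lam
  -- the crude bound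
  have hcr : ∀ n, U n ≤ √lam + ∑ k ∈ range n,
      √(2 * (F k + F (k + 1)) * (H (k + 1) - H k)) := by
    intro n
    induction n using Nat.strong_induction_on with
    | _ n ih =>
      match n with
      | 0 => simp [hU0, hsl]
      | 1 =>
        rw [sum_range_succ]
        have := Real.sqrt_nonneg (2 * (F 0 + F (0 + 1)) * (H (0 + 1) - H 0))
        simp only [sum_range_zero]
        linarith
      | (n + 2) =>
        have h1 := ih n (by omega)
        have h2 := hrec n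
        rw [sum_range_succ, sum_range_succ]
        have := Real.sqrt_nonneg (2 * (F (n + 1) + F (n + 1 + 1)) * (H (n + 1 + 1) - H (n + 1)))
        linarith
  rcases hlam.eq_or_lt with h0 | hpos
  · -- `lam = 0`
    have hF0 : ∀ k, F k = 0 := by
      intro k
      have h1 := hsum (k + 1)
      rw [← h0, zero_mul, sum_range_succ] at h1
      have h2 : 0 ≤ ∑ j ∈ range k, F j := sum_nonneg fun j _ => hF j
      have h3 := hF k
      linarith
    have := hcr n
    rw [← h0] at this ⊢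
    simpa [hF0] using this
  · have hs : 0 < √lam := Real.sqrt_pos.2 hpos
    have hss : √lam * √lam = lam := Real.mul_self_sqrt hlam
    have hF' : ∀ n, ∑ k ∈ range n, F (k + 1) ≤ 2 * lam * n := by
      intro n
      rcases Nat.eq_zero_or_pos n with rfl | hp
      · simp
      · have h1 := hsum (n + 1)
        rw [sum_range_succ'] at h1
        have h2 := hF 0
        have h3 : (1 : ℝ) ≤ n := by exact_mod_cast hp
        push_cast at h1
        nlinarith
    have w1 := wsum F lam hlam hsum n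
    have w2 := wsum (fun k => F (k + 1)) (2 * lam) (by positivity) hF' n
    have w3 := hent n hn
    have hterm : ∀ k ∈ range n, √(2 * (F k + F (k + 1)) * (H (k + 1) - H k)) ≤
        (√lam)⁻¹ * (F k * (√((k : ℝ) + 1))⁻¹ + F (k + 1) * (√((k : ℝ) + 1))⁻¹) +
          √lam / 2 * (√((k : ℝ) + 1) * (H (k + 1) - H k)) := by
      intro k _
      have hk : 0 < √((k : ℝ) + 1) := Real.sqrt_pos.2 (by positivity)
      have := amgm (a := F k + F (k + 1)) (b := H (k + 1) - H k) (c := √lam * √((k : ℝ) + 1))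
        (add_nonneg (hF _) (hF _)) (sub_nonneg.2 (hH (Nat.le_succ k))) (by positivity)
      refine this.trans (le_of_eq ?_)
      rw [mul_inv]
      ring
    have htot := sum_le_sum hterm
    rw [sum_add_distrib, ← mul_sum, ← mul_sum, sum_add_distrib] at htot
    have h1 := hcr n
    have h2 : (√lam)⁻¹ * (∑ k ∈ range n, F k * (√((k : ℝ) + 1))⁻¹ +
        ∑ k ∈ range n, F (k + 1) * (√((k : ℝ) + 1))⁻¹) ≤ 6 * √lam * √(n : ℝ) := by
      have h3 : ∑ k ∈ range n, F k * (√((k : ℝ) + 1))⁻¹ +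
        ∑ k ∈ range n, F (k + 1) * (√((k : ℝ) + 1))⁻¹ ≤ 6 * lam * √(n : ℝ) := by
        have := add_le_add w1 w2
        refine this.trans (le_of_eq (by ring))
      refine (mul_le_mul_of_nonneg_left h3 (inv_nonneg.2 hs.le)).trans (le_of_eq ?_)
      have h7 : (√lam)⁻¹ * lam = √lam := by rw [inv_mul_eq_div, Real.div_sqrt]
      calc (√lam)⁻¹ * (6 * lam * √(n : ℝ)) = 6 * ((√lam)⁻¹ * lam) * √(n : ℝ) := by ring
        _ = 6 * √lam * √(n : ℝ) := by rw [h7]
    have h4 : √lam / 2 * ∑ k ∈ range n, √((k : ℝ) + 1) * (H (k + 1) - H k) ≤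
        √lam / 2 * (C * √(n : ℝ)) := mul_le_mul_of_nonneg_left w3 (by positivity)
    have h5 : √lam ≤ √lam * √(n : ℝ) := le_mul_of_one_le_right hs.le hn1
    have h6 : U n ≤ √lam * √(n : ℝ) + (6 * √lam * √(n : ℝ) + √lam / 2 * (C * √(n : ℝ))) := by
      linarith
    refine h6.trans (le_of_eq (by ring))

end Pool.Agent.Helper74.PC.CL
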